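import Mathlib

/-!
# Polynomials with two critical values and small fixed point multipliers (MP_b61545_an, Q1)

The polynomials `p` with `p' = A (1 - z²)^a`, `p(±1) = ±1`, have degree `2 a + 1`, exactly two
critical values, and for large `a` all their fixed point multipliers are at most `3/4 (2 a + 1)`
in modulus.
-/

set_option autoImplicit false

open Polynomial MeasureTheory intervalIntegral Set

namespace Pool.Agent.Results.MP_b61545_an.FewCriticalValues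

/-- `cv p`: the number of critical values of `p`. -/
noncomputable def cv (p : ℂ[X]) : ℕ := ((fun z => p.eval z) '' {z | (derivative p).eval z = 0}).ncard

/-- The fixed points of `p`. -/
def fixedPoints (p : ℂ[X]) : Set ℂ := {ξ | p.eval ξ = ξ}

/-- `Λ(p)`: the largest modulus of the multiplier of a fixed point of `p`. -/
noncomputable def maxMultiplier (p : ℂ[X]) : ℝ :=
  sSup ((fun ξ => ‖(derivative p).eval ξ‖) '' fixedPoints p)

/-! ### The polynomials -/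

theorem exists_antiderivative (f : ℂ[X]) : ∃ q : ℂ[X], derivative q = f ∧ q.eval 0 = 0 := by
  refine ⟨∑ j ∈ Finset.range (f.natDegree + 1), C (f.coeff j / (j + 1)) * X ^ (j + 1), ?_, ?_⟩
  · rw [derivative_sum]
    conv_rhs => rw [f.as_sum_range_C_mul_X_pow]
    refine Finset.sum_congr rfl fun j _ => ?_
    rw [derivative_C_mul, derivative_X_pow, ← mul_assoc, ← C_mul]
    simp only [Nat.add_sub_cancel]
    congr 2
    have : ((j : ℂ) + 1) ≠ 0 := by exact_mod_cast Nat.succ_ne_zero j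
    push_cast
    field_simp
  · simp [eval_finsetSum]

/-- The value of a polynomial along a curve is the integral of its derivative. -/
theorem eval_sub (q : ℂ[X]) (t t' : ℝ → ℂ) (ht : ∀ s ∈ Icc (0 : ℝ) 1, HasDerivAt t (t' s) s)
    (hint : ContinuousOn t' (Icc 0 1)) :
    q.eval (t 1) - q.eval (t 0) = ∫ s in (0 : ℝ)..1, (derivative q).eval (t s) * t' s := by
  rw [eq_comm]
  have hcont : ContinuousOn t (Icc 0 1) := fun s hs => (ht s hs).continuousAt.continuousWithinAt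
  refine integral_eq_sub_of_hasDerivAt (f := fun s => q.eval (t s)) ?_ ?_
  · intro s hs
    rw [uIcc_of_le zero_le_one] at hs
    exact (q.hasDerivAt (t s)).comp s (ht s hs)
  · apply ContinuousOn.intervalIntegrable
    rw [uIcc_of_le zero_le_one]
    exact ((derivative q).continuous.comp_continuousOn hcont).mul hint

section
variable {a : ℕ} {q : ℂ[X]} (hq : derivative q = (1 - X ^ 2) ^ a) (hq0 : q.eval 0 = 0)
include hq hq0

theorem eval_ray (z : ℂ) :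
    q.eval z = z * ∫ s in (0 : ℝ)..1, (1 - ((s : ℂ) * z) ^ 2) ^ a := by
  have h := eval_sub q (fun s => (s : ℂ) * z) (fun _ => z)
    (fun s _ => by
      have := (Complex.ofRealCLM.hasDerivAt (x := s)).mul_const z
      simpa using this) continuousOn_const
  simp only [Complex.ofReal_one, one_mul, Complex.ofReal_zero, zero_mul, hq0, sub_zero] at h
  rw [h, hq, intervalIntegral.integral_mul_const, mul_comm]
  simp

theorem eval_one : q.eval 1 = ((∫ s in (0 : ℝ)..1, (1 - s ^ 2) ^ a : ℝ) : ℂ) := by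
  rw [eval_ray hq hq0, one_mul, ← intervalIntegral.integral_ofReal]
  congr 1
  ext s
  push_cast
  ring

theorem eval_neg (z : ℂ) : q.eval (-z) = -q.eval z := by
  rw [eval_ray hq hq0, eval_ray hq hq0 z, neg_mul]
  congr 2
  congr 1
  ext s
  ring

end

theorem integral_lower (a : ℕ) : 1 / ((a : ℝ) + 1) ≤ ∫ s in (0 : ℝ)..1, (1 - s ^ 2) ^ a := by
  have h1 : ∫ s in (0 : ℝ)..1, (1 - s) ^ a = 1 / ((a : ℝ) + 1) := by
    have := integral_comp_sub_left (a := 0) (b := 1) (fun x : ℝ => x ^ a) 1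
    rw [this]
    simp
  rw [← h1]
  apply integral_mono_on zero_le_one
  · exact (Continuous.intervalIntegrable (by fun_prop) _ _)
  · exact (Continuous.intervalIntegrable (by fun_prop) _ _)
  · intro s hs
    have h0 : 0 ≤ 1 - s := by linarith [hs.2]
    apply pow_le_pow_left₀ h0
    nlinarith [hs.1, hs.2]

theorem integral_upper {a : ℕ} (ha : 1 ≤ a) : ∫ s in (0 : ℝ)..1, (1 - s ^ 2) ^ a ≤ 2 / 3 := by
  have h1 : ∫ s in (0 : ℝ)..1, (1 - s ^ 2 : ℝ) = 2 / 3 := by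
    rw [intervalIntegral.integral_sub (by simp) (by simp)]
    simp
    norm_num
  rw [← h1]
  apply integral_mono_on zero_le_one
  · exact (Continuous.intervalIntegrable (by fun_prop) _ _)
  · exact (Continuous.intervalIntegrable (by fun_prop) _ _)
  · intro s hs
    have h0 : 0 ≤ 1 - s ^ 2 := by nlinarith [hs.1, hs.2]
    have h2 : 1 - s ^ 2 ≤ 1 := by nlinarith [sq_nonneg s]
    calc (1 - s ^ 2) ^ a ≤ (1 - s ^ 2) ^ 1 := pow_le_pow_of_le_one h0 h2 ha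
      _ = 1 - s ^ 2 := pow_one _

/-! ### The square root along the segment from `1` to `ξ²` -/

/-- `√(1 - s Y)`. -/
noncomputable def rt (Y : ℂ) (s : ℝ) : ℂ := Complex.exp (Complex.log (1 - s * Y) / 2)

section
variable {ξ : ℂ} (hξ : 0 < ξ.re)
include hξ

theorem sq_mem_slitPlane : ξ ^ 2 ∈ Complex.slitPlane := by
  rw [Complex.mem_slitPlane_iff]
  by_contra h
  push Not at h
  have h1 : (ξ ^ 2).im = 2 * ξ.re * ξ.im := by rw [sq, Complex.mul_im]; ring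
  have h2 : (ξ ^ 2).re = ξ.re ^ 2 - ξ.im ^ 2 := by rw [sq, Complex.mul_re]; ring
  rw [h1] at h
  have h3 : ξ.im = 0 := by
    rcases mul_eq_zero.1 h.2 with h4 | h4
    · linarith
    · exact h4
  rw [h2, h3] at h
  nlinarith [h.1]

theorem seg_mem {s : ℝ} (hs : s ∈ Icc (0 : ℝ) 1) : 1 - s * (1 - ξ ^ 2) ∈ Complex.slitPlane := by
  have h := Complex.starConvex_one_slitPlane.segment_subset (sq_mem_slitPlane hξ)
  apply h
  refine ⟨1 - s, s, by linarith [hs.2], hs.1, by ring, ?_⟩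
  simp only [Complex.real_smul]
  push_cast
  ring

theorem rt_sq {s : ℝ} (hs : s ∈ Icc (0 : ℝ) 1) :
    rt (1 - ξ ^ 2) s ^ 2 = 1 - s * (1 - ξ ^ 2) := by
  rw [rt, ← Complex.exp_nat_mul]
  rw [show ((2 : ℕ) : ℂ) * (Complex.log (1 - s * (1 - ξ ^ 2)) / 2) =
    Complex.log (1 - s * (1 - ξ ^ 2)) by push_cast; ring]
  exact Complex.exp_log (Complex.slitPlane_ne_zero (seg_mem hξ hs))

theorem rt_re_pos {s : ℝ} (hs : s ∈ Icc (0 : ℝ) 1) : 0 < (rt (1 - ξ ^ 2) s).re := by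
  rw [rt, Complex.exp_re]
  apply mul_pos (Real.exp_pos _)
  apply Real.cos_pos_of_mem_Ioo
  have h := seg_mem hξ hs
  have h1 := Complex.mem_slitPlane_iff_arg.1 h
  have h2 : (Complex.log (1 - s * (1 - ξ ^ 2)) / 2).im = Complex.arg (1 - s * (1 - ξ ^ 2)) / 2 := by
    rw [show (Complex.log (1 - s * (1 - ξ ^ 2)) / 2) =
      ((1 / 2 : ℝ) : ℂ) * Complex.log (1 - s * (1 - ξ ^ 2)) by push_cast; ring,
      Complex.im_ofReal_mul, Complex.log_im]
    ring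
  rw [h2]
  have h3 := Complex.neg_pi_lt_arg (1 - s * (1 - ξ ^ 2))
  have h4 := Complex.arg_le_pi (1 - s * (1 - ξ ^ 2))
  have h5 : Complex.arg (1 - s * (1 - ξ ^ 2)) < Real.pi := lt_of_le_of_ne h4 h1.1
  constructor <;> linarith

omit hξ in
theorem rt_zero (Y : ℂ) : rt Y 0 = 1 := by simp [rt]

theorem rt_one : rt (1 - ξ ^ 2) 1 = ξ := by
  have h1 := rt_sq hξ (s := 1) ⟨zero_le_one, le_refl _⟩
  have h2 := rt_re_pos hξ (s := 1) ⟨zero_le_one, le_refl _⟩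
  have h3 : rt (1 - ξ ^ 2) 1 ^ 2 = ξ ^ 2 := by rw [h1]; push_cast; ring
  rcases sq_eq_sq_iff_eq_or_eq_neg.1 h3 with h | h
  · exact h
  · rw [h, Complex.neg_re] at h2
    linarith

omit hξ in
theorem rt_ne_zero (s : ℝ) : rt (1 - ξ ^ 2) s ≠ 0 := Complex.exp_ne_zero _

theorem rt_hasDerivAt {s : ℝ} (hs : s ∈ Icc (0 : ℝ) 1) :
    HasDerivAt (rt (1 - ξ ^ 2)) (-(1 - ξ ^ 2) / (2 * rt (1 - ξ ^ 2) s)) s := by
  have h1 : HasDerivAt (fun s : ℝ => 1 - (s : ℂ) * (1 - ξ ^ 2)) (-(1 - ξ ^ 2)) s := by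
    have := ((Complex.ofRealCLM.hasDerivAt (x := s)).mul_const (1 - ξ ^ 2)).const_sub 1
    simpa using this
  have h2 := (h1.clog_real (seg_mem hξ hs)).div_const 2
  have h3 := h2.cexp
  have h4 := rt_sq hξ hs
  have h5 := rt_ne_zero (ξ := ξ) s
  have h6 : -(1 - ξ ^ 2) / (2 * rt (1 - ξ ^ 2) s) =
      Complex.exp (Complex.log (1 - ↑s * (1 - ξ ^ 2)) / 2) *
        (-(1 - ξ ^ 2) / (1 - ↑s * (1 - ξ ^ 2)) / 2) := by
    change _ = rt (1 - ξ ^ 2) s * (-(1 - ξ ^ 2) / (1 - ↑s * (1 - ξ ^ 2)) / 2)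
    rw [← h4]
    field_simp
  rw [h6]
  exact h3

theorem rt_continuousOn : ContinuousOn (rt (1 - ξ ^ 2)) (Icc 0 1) := fun _ hs =>
  (rt_hasDerivAt hξ hs).continuousAt.continuousWithinAt

theorem eval_sub_eval_one {a : ℕ} {q : ℂ[X]} (hq : derivative q = (1 - X ^ 2) ^ a) :
    q.eval ξ - q.eval 1 =
      -(1 - ξ ^ 2) ^ (a + 1) / 2 * ∫ s in (0 : ℝ)..1, (s : ℂ) ^ a / rt (1 - ξ ^ 2) s := by
  have h := eval_sub q (rt (1 - ξ ^ 2)) (fun s => -(1 - ξ ^ 2) / (2 * rt (1 - ξ ^ 2) s))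
    (fun s hs => rt_hasDerivAt hξ hs)
    (continuousOn_const.div (continuousOn_const.mul (rt_continuousOn hξ))
      (fun s hs => mul_ne_zero two_ne_zero (rt_ne_zero s)))
  rw [rt_one hξ, rt_zero] at h
  rw [h, ← intervalIntegral.integral_const_mul]
  apply integral_congr
  intro s hs
  rw [uIcc_of_le zero_le_one] at hs
  have h4 := rt_sq hξ hs
  have h5 := rt_ne_zero (ξ := ξ) s
  simp only [hq, Polynomial.eval_pow, Polynomial.eval_sub, Polynomial.eval_one, Polynomial.eval_X]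
  rw [h4, show (1 : ℂ) - (1 - s * (1 - ξ ^ 2)) = s * (1 - ξ ^ 2) by ring, mul_pow,
    pow_succ (1 - ξ ^ 2) a]
  generalize (1 - ξ ^ 2) ^ a = W at *
  field_simp

end

/-- Elementary: the tangent line inequality for `y ↦ 1 / √y`. -/
theorem tangent {b c : ℝ} (hb : 0 < b) (hc : 0 < c) :
    1 / c * (3 / 2 - b ^ 2 / (2 * c ^ 2)) ≤ 1 / b := by
  rw [← sub_nonneg]
  have : 1 / b - 1 / c * (3 / 2 - b ^ 2 / (2 * c ^ 2)) =
      (b - c) ^ 2 * (b + 2 * c) / (2 * b * c ^ 3) := by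
    field_simp
    ring
  rw [this]
  positivity

/-- A square root of a point between `1` and `ξ²` lies in the cone spanned by `1` and `ξ`. -/
theorem cone {ξ t : ℂ} {s : ℝ} (hs0 : 0 ≤ s) (hs1 : s ≤ 1) (hξ : 0 < ξ.re) (ht : 0 < t.re)
    (h : t ^ 2 = 1 - s * (1 - ξ ^ 2)) :
    (‖ξ‖ + ξ.re) / √(1 - s + ‖ξ‖ ^ 2) ≤ (((‖ξ‖ : ℂ) + ξ) / t).re := by
  have hx : ‖ξ‖ ^ 2 = ξ.re ^ 2 + ξ.im ^ 2 := by
    rw [Complex.sq_norm, Complex.normSq_apply]; ring
  have hT : ‖t‖ ^ 2 = t.re ^ 2 + t.im ^ 2 := by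
    rw [Complex.sq_norm, Complex.normSq_apply]; ring
  have him : t.re * t.im = s * (ξ.re * ξ.im) := by
    have := congrArg Complex.im h
    simp [sq] at this
    linarith
  have hre : t.re ^ 2 - t.im ^ 2 = (1 - s) + s * (ξ.re ^ 2 - ξ.im ^ 2) := by
    have := congrArg Complex.re h
    simp [sq] at this
    linarith
  have hn1 : ‖t‖ ^ 2 ≤ (1 - s) + s * ‖ξ‖ ^ 2 := by
    rw [← norm_pow t, h]
    calc ‖1 - (s : ℂ) * (1 - ξ ^ 2)‖ = ‖((1 - s : ℝ) : ℂ) + (s : ℂ) * ξ ^ 2‖ := by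
          congr 1; push_cast; ring
      _ ≤ _ := by
          refine (norm_add_le _ _).trans ?_
          rw [norm_mul, norm_pow, Complex.norm_real, Complex.norm_real, Real.norm_eq_abs,
            Real.norm_eq_abs, abs_of_nonneg hs0, abs_of_nonneg (by linarith)]
  have hn2 : s * ‖ξ‖ ^ 2 - (1 - s) ≤ ‖t‖ ^ 2 := by
    rw [← norm_pow t, h]
    calc s * ‖ξ‖ ^ 2 - (1 - s) = ‖(s : ℂ) * ξ ^ 2‖ - ‖((1 - s : ℝ) : ℂ)‖ := by
          rw [norm_mul, norm_pow, Complex.norm_real, Complex.norm_real, Real.norm_eq_abs,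
            Real.norm_eq_abs, abs_of_nonneg hs0, abs_of_nonneg (by linarith)]
      _ ≤ ‖(s : ℂ) * ξ ^ 2 + ((1 - s : ℝ) : ℂ)‖ := norm_sub_le_norm_add _ _
      _ = _ := by congr 1; push_cast; ring
  have hα : s * ξ.re ^ 2 ≤ t.re ^ 2 := by nlinarith
  have htn : 0 < ‖t‖ := by
    rw [norm_pos_iff]
    rintro rfl
    simp at ht
  have hxn : 0 < ‖ξ‖ := by
    rw [norm_pos_iff]
    rintro rfl
    simp at hξ
  set β : ℝ := s * ξ.re / t.re with hβ
  set α : ℝ := t.re - β * ξ.re with hαd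
  have hβ0 : 0 ≤ β := by positivity
  have hα0 : 0 ≤ α := by
    rw [hαd, hβ, sub_nonneg, div_mul_eq_mul_div, div_le_iff₀ ht]
    nlinarith
  have htim : t.im = β * ξ.im := by
    rw [hβ]
    field_simp
    linarith
  have ht1 : t = (α : ℂ) + (β : ℂ) * ξ := by
    apply Complex.ext
    · simp [hαd]
    · simp [htim]
  have hnt : ‖t‖ ≤ α + β * ‖ξ‖ := by
    conv_lhs => rw [ht1]
    refine (norm_add_le _ _).trans ?_
    rw [norm_mul, Complex.norm_real, Complex.norm_real, Real.norm_eq_abs, Real.norm_eq_abs,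
      abs_of_nonneg hα0, abs_of_nonneg hβ0]
  have key : (‖ξ‖ + ξ.re) * ‖t‖ ≤ (‖ξ‖ + ξ.re) * t.re + ξ.im * t.im := by
    have e1 : (‖ξ‖ + ξ.re) * t.re + ξ.im * t.im = (‖ξ‖ + ξ.re) * (α + β * ‖ξ‖) := by
      have : t.re = α + β * ξ.re := by rw [hαd]; ring
      rw [htim, this]
      nlinarith
    rw [e1]
    exact mul_le_mul_of_nonneg_left hnt (by positivity)
  have hdiv : (((‖ξ‖ : ℂ) + ξ) / t).re = ((‖ξ‖ + ξ.re) * t.re + ξ.im * t.im) / ‖t‖ ^ 2 := by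
    rw [Complex.div_re, Complex.sq_norm]
    simp
    ring
  rw [hdiv]
  calc (‖ξ‖ + ξ.re) / √(1 - s + ‖ξ‖ ^ 2) ≤ (‖ξ‖ + ξ.re) / ‖t‖ := by
        apply div_le_div_of_nonneg_left (by positivity) htn
        apply Real.le_sqrt_of_sq_le
        nlinarith [sq_nonneg ‖ξ‖]
    _ = ((‖ξ‖ + ξ.re) * ‖t‖) / ‖t‖ ^ 2 := by field_simp
    _ ≤ _ := div_le_div_of_nonneg_right key (by positivity)

theorem integral_tangent (a : ℕ) {x : ℝ} (hx : 0 < x) :
    1 / ((a : ℝ) + 1) ≤ √(x ^ 2 + 1 / (a + 2)) * ∫ s in (0 : ℝ)..1, s ^ a / √(1 - s + x ^ 2) := by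
  set c := √(x ^ 2 + 1 / (a + 2)) with hc
  have hc2 : c ^ 2 = x ^ 2 + 1 / (a + 2) := Real.sq_sqrt (by positivity)
  have hc0 : 0 < c := Real.sqrt_pos.2 (by positivity)
  rw [← intervalIntegral.integral_const_mul]
  have h1 : ∫ s in (0 : ℝ)..1, s ^ a * (3 / 2 - (1 - s + x ^ 2) / (2 * c ^ 2)) =
      1 / ((a : ℝ) + 1) := by
    have : ∀ s : ℝ, s ^ a * (3 / 2 - (1 - s + x ^ 2) / (2 * c ^ 2)) =
        (3 / 2 - (1 + x ^ 2) / (2 * c ^ 2)) * s ^ a + (1 / (2 * c ^ 2)) * s ^ (a + 1) := by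
      intro s
      ring
    simp_rw [this]
    rw [intervalIntegral.integral_add (Continuous.intervalIntegrable (by fun_prop) _ _)
      (Continuous.intervalIntegrable (by fun_prop) _ _), intervalIntegral.integral_const_mul,
      intervalIntegral.integral_const_mul, integral_pow, integral_pow, hc2]
    push_cast
    simp only [one_pow, ne_eq, Nat.succ_ne_zero, not_false_eq_true, zero_pow, sub_zero]
    have h2 : (a : ℝ) + 1 ≠ 0 := by positivity
    have h3 : (a : ℝ) + 2 ≠ 0 := by positivity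
    have h4 : (a : ℝ) + 1 + 1 ≠ 0 := by positivity
    have h5 : x ^ 2 * ((a : ℝ) + 2) + 1 ≠ 0 := by positivity
    field_simp
    ring
  rw [← h1]
  have hpos : ∀ s ∈ Icc (0 : ℝ) 1, 0 < 1 - s + x ^ 2 := by
    intro s hs
    have := hs.2
    positivity
  apply integral_mono_on zero_le_one
  · exact (Continuous.intervalIntegrable (by fun_prop) _ _)
  · apply ContinuousOn.intervalIntegrable
    rw [uIcc_of_le zero_le_one]
    apply continuousOn_const.mul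
    apply ContinuousOn.div (by fun_prop) (by fun_prop)
    intro s hs
    exact (Real.sqrt_pos.2 (hpos s hs)).ne'
  · intro s hs
    have h2 := hpos s hs
    have h3 := tangent (Real.sqrt_pos.2 h2) hc0
    rw [Real.sq_sqrt h2.le] at h3
    have h4 : 0 ≤ s ^ a := pow_nonneg hs.1 a
    calc s ^ a * (3 / 2 - (1 - s + x ^ 2) / (2 * c ^ 2))
        = s ^ a * c * (1 / c * (3 / 2 - (1 - s + x ^ 2) / (2 * c ^ 2))) := by field_simp
      _ ≤ s ^ a * c * (1 / √(1 - s + x ^ 2)) := mul_le_mul_of_nonneg_left h3 (by positivity)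
      _ = _ := by ring

theorem integral_re_lower {ξ : ℂ} (hξ : 0 < ξ.re) (a : ℕ) :
    (‖ξ‖ + ξ.re) / (a + 1) ≤ √(‖ξ‖ ^ 2 + 1 / (a + 2)) *
      (((‖ξ‖ : ℂ) + ξ) * ∫ s in (0 : ℝ)..1, (s : ℂ) ^ a / rt (1 - ξ ^ 2) s).re := by
  have hxn : 0 < ‖ξ‖ := by
    rw [norm_pos_iff]
    rintro rfl
    simp at hξ
  have hcont : ContinuousOn (fun s : ℝ => (s : ℂ) ^ a / rt (1 - ξ ^ 2) s) (Icc 0 1) := by
    apply ContinuousOn.div (by fun_prop) (rt_continuousOn hξ)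
    intro s hs
    exact rt_ne_zero s
  have hint : IntervalIntegrable (fun s : ℝ => ((‖ξ‖ : ℂ) + ξ) * ((s : ℂ) ^ a / rt (1 - ξ ^ 2) s))
      volume 0 1 := by
    apply ContinuousOn.intervalIntegrable
    rw [uIcc_of_le zero_le_one]
    exact continuousOn_const.mul hcont
  rw [← intervalIntegral.integral_const_mul]
  have h1 : (∫ s in (0 : ℝ)..1, ((‖ξ‖ : ℂ) + ξ) * ((s : ℂ) ^ a / rt (1 - ξ ^ 2) s)).re =
      ∫ s in (0 : ℝ)..1, (((‖ξ‖ : ℂ) + ξ) * ((s : ℂ) ^ a / rt (1 - ξ ^ 2) s)).re := by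
    have := Complex.reCLM.intervalIntegral_comp_comm hint
    simpa using this.symm
  rw [h1]
  have h2 : (‖ξ‖ + ξ.re) * ∫ s in (0 : ℝ)..1, s ^ a / √(1 - s + ‖ξ‖ ^ 2) ≤
      ∫ s in (0 : ℝ)..1, (((‖ξ‖ : ℂ) + ξ) * ((s : ℂ) ^ a / rt (1 - ξ ^ 2) s)).re := by
    rw [← intervalIntegral.integral_const_mul]
    apply integral_mono_on zero_le_one
    · apply ContinuousOn.intervalIntegrable
      rw [uIcc_of_le zero_le_one]
      apply continuousOn_const.mul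
      apply ContinuousOn.div (by fun_prop) (by fun_prop)
      intro s hs
      have := hs.2
      exact (Real.sqrt_pos.2 (by positivity)).ne'
    · apply ContinuousOn.intervalIntegrable
      rw [uIcc_of_le zero_le_one]
      exact Complex.continuous_re.comp_continuousOn (continuousOn_const.mul hcont)
    · intro s hs
      have h3 := cone hs.1 hs.2 hξ (rt_re_pos hξ hs) (rt_sq hξ hs)
      have h4 : 0 ≤ s ^ a := pow_nonneg hs.1 a
      have h5 : (((‖ξ‖ : ℂ) + ξ) * ((s : ℂ) ^ a / rt (1 - ξ ^ 2) s)).re =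
          s ^ a * (((‖ξ‖ : ℂ) + ξ) / rt (1 - ξ ^ 2) s).re := by
        rw [← Complex.re_ofReal_mul]
        congr 1
        push_cast
        ring
      rw [h5]
      calc (‖ξ‖ + ξ.re) * (s ^ a / √(1 - s + ‖ξ‖ ^ 2))
          = s ^ a * ((‖ξ‖ + ξ.re) / √(1 - s + ‖ξ‖ ^ 2)) := by ring
        _ ≤ _ := mul_le_mul_of_nonneg_left h3 h4
  calc (‖ξ‖ + ξ.re) / (a + 1) = (‖ξ‖ + ξ.re) * (1 / (a + 1)) := by ring
    _ ≤ (‖ξ‖ + ξ.re) * (√(‖ξ‖ ^ 2 + 1 / (a + 2)) *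
        ∫ s in (0 : ℝ)..1, s ^ a / √(1 - s + ‖ξ‖ ^ 2)) :=
        mul_le_mul_of_nonneg_left (integral_tangent a hxn) (by positivity)
    _ = √(‖ξ‖ ^ 2 + 1 / (a + 2)) * ((‖ξ‖ + ξ.re) *
        ∫ s in (0 : ℝ)..1, s ^ a / √(1 - s + ‖ξ‖ ^ 2)) := by ring
    _ ≤ _ := mul_le_mul_of_nonneg_left h2 (Real.sqrt_nonneg _)

/-- The main estimate for the multiplier `m` of a fixed point in the right half plane. -/
theorem multiplier_sq_le {ξ : ℂ} (hξ : 0 < ξ.re) (a : ℕ) {m : ℂ}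
    (hm : m * (1 + ξ) * (∫ s in (0 : ℝ)..1, (s : ℂ) ^ a / rt (1 - ξ ^ 2) s) = 2) :
    ‖m‖ ^ 2 * (1 + 2 * ξ.re + ‖ξ‖ ^ 2) * (‖ξ‖ + ξ.re) ≤
      8 * (a + 1) ^ 2 * (‖ξ‖ ^ 2 + 1 / (a + 2)) * ‖ξ‖ := by
  set I := ∫ s in (0 : ℝ)..1, (s : ℂ) ^ a / rt (1 - ξ ^ 2) s with hI
  have hxn : 0 < ‖ξ‖ := by
    rw [norm_pos_iff]
    rintro rfl
    simp at hξ
  have h1 := integral_re_lower hξ a
  rw [← hI] at h1
  have hx : ‖ξ‖ ^ 2 = ξ.re ^ 2 + ξ.im ^ 2 := by
    rw [Complex.sq_norm, Complex.normSq_apply]; ring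
  have h2 : ‖(‖ξ‖ : ℂ) + ξ‖ ^ 2 = 2 * ‖ξ‖ * (‖ξ‖ + ξ.re) := by
    rw [Complex.sq_norm, Complex.normSq_apply]
    simp
    nlinarith
  have h3 : ‖1 + ξ‖ ^ 2 = 1 + 2 * ξ.re + ‖ξ‖ ^ 2 := by
    rw [hx, Complex.sq_norm, Complex.normSq_apply]
    simp
    ring
  have h4 : ‖m‖ ^ 2 * ‖1 + ξ‖ ^ 2 * ‖I‖ ^ 2 = 4 := by
    rw [← mul_pow, ← mul_pow, ← norm_mul, ← norm_mul, hm]
    norm_num
  have h5 : (‖ξ‖ + ξ.re) / (a + 1) ≤ √(‖ξ‖ ^ 2 + 1 / (a + 2)) * (‖(‖ξ‖ : ℂ) + ξ‖ * ‖I‖) := by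
    refine h1.trans (mul_le_mul_of_nonneg_left ?_ (Real.sqrt_nonneg _))
    rw [← norm_mul]
    exact Complex.re_le_norm _
  have h6 : ((‖ξ‖ + ξ.re) / (a + 1)) ^ 2 ≤
      (‖ξ‖ ^ 2 + 1 / (a + 2)) * (2 * ‖ξ‖ * (‖ξ‖ + ξ.re)) * ‖I‖ ^ 2 := by
    calc ((‖ξ‖ + ξ.re) / (a + 1)) ^ 2
        ≤ (√(‖ξ‖ ^ 2 + 1 / (a + 2)) * (‖(‖ξ‖ : ℂ) + ξ‖ * ‖I‖)) ^ 2 :=
          pow_le_pow_left₀ (by positivity) h5 2
      _ = _ := by
          rw [mul_pow, mul_pow, Real.sq_sqrt (by positivity), h2]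
          ring
  have h7 : (‖ξ‖ + ξ.re) ≤ (‖ξ‖ ^ 2 + 1 / (a + 2)) * (2 * ‖ξ‖) * ‖I‖ ^ 2 * (a + 1) ^ 2 := by
    have hp : 0 < ‖ξ‖ + ξ.re := by positivity
    rw [div_pow, div_le_iff₀ (by positivity)] at h6
    nlinarith
  rw [← h3]
  calc ‖m‖ ^ 2 * ‖1 + ξ‖ ^ 2 * (‖ξ‖ + ξ.re)
      ≤ ‖m‖ ^ 2 * ‖1 + ξ‖ ^ 2 *
        ((‖ξ‖ ^ 2 + 1 / (a + 2)) * (2 * ‖ξ‖) * ‖I‖ ^ 2 * (a + 1) ^ 2) :=
        mul_le_mul_of_nonneg_left h7 (by positivity)
    _ = (‖m‖ ^ 2 * ‖1 + ξ‖ ^ 2 * ‖I‖ ^ 2) *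
        ((‖ξ‖ ^ 2 + 1 / (a + 2)) * (2 * ‖ξ‖) * (a + 1) ^ 2) := by ring
    _ = _ := by rw [h4]; ring

/-! ### The final numerical estimate -/

theorem final_estimate {M D x u κ : ℝ} (hD : 0 < D) (hx : 0 < x) (hu : 0 < u)
    (hux : u ≤ x) (hκ : κ ≤ 1 / 1000) (hM : 0 ≤ M)
    (h : M ^ 2 * (1 + 2 * u + x ^ 2) * (x + u) ≤ 201 / 100 * D ^ 2 * (x ^ 2 + κ) * x)
    (hY : (1 + x ^ 2) ^ 2 - 4 * u ^ 2 ≤ (51 / 50) ^ 2) : M ≤ 3 / 4 * D := by
  by_contra hcon
  push Not at hcon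
  have h1 : 9 / 16 * D ^ 2 < M ^ 2 := by nlinarith
  have h2 : 9 / 16 * D ^ 2 * ((1 + 2 * u + x ^ 2) * (x + u)) <
      M ^ 2 * ((1 + 2 * u + x ^ 2) * (x + u)) :=
    mul_lt_mul_of_pos_right h1 (by positivity)
  have h3 : 9 / 16 * ((1 + 2 * u + x ^ 2) * (x + u)) < 201 / 100 * (x ^ 2 + κ) * x := by
    have h4 : D ^ 2 * (9 / 16 * ((1 + 2 * u + x ^ 2) * (x + u))) <
        D ^ 2 * (201 / 100 * (x ^ 2 + κ) * x) := by nlinarith
    exact lt_of_mul_lt_mul_left h4 (by positivity)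
  have h5 : 201 / 100 * (x ^ 2 + κ) * x ≤ 201 / 100 * (x ^ 2 + 1 / 1000) * x := by
    apply mul_le_mul_of_nonneg_right _ hx.le
    linarith
  rcases le_total (x ^ 2) (1 / 5) with hX | hX
  · have h6 : 9 / 16 * x ≤ 9 / 16 * ((1 + 2 * u + x ^ 2) * (x + u)) := by nlinarith [sq_nonneg x]
    have h7 : 201 / 100 * (x ^ 2 + 1 / 1000) * x ≤ 1 / 2 * x :=
      mul_le_mul_of_nonneg_right (by linarith) hx.le
    linarith
  · have hux2 : u ^ 2 ≤ x ^ 2 := pow_le_pow_left₀ hu.le hux 2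
    have hX2 : x ^ 2 ≤ 202 / 100 := by nlinarith
    have hx2 : x ≤ 143 / 100 := by nlinarith
    have hu2 : (7 / 10 * x) ^ 2 ≤ u ^ 2 := by nlinarith
    have hu7 : 7 / 10 * x ≤ u := by
      exact (pow_le_pow_iff_left₀ (by positivity) hu.le two_ne_zero).1 hu2
    have h6 : (1 + 14 / 10 * x + x ^ 2) * (17 / 10 * x) ≤ (1 + 2 * u + x ^ 2) * (x + u) := by
      apply mul_le_mul (by linarith) (by linarith) (by positivity) (by positivity)
    have h7 : 9 / 16 * ((1 + 14 / 10 * x + x ^ 2) * (17 / 10 * x)) <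
        201 / 100 * (x ^ 2 + 1 / 1000) * x := by linarith
    have h8 : 9 / 16 * (1 + 14 / 10 * x + x ^ 2) * (17 / 10) < 201 / 100 * (x ^ 2 + 1 / 1000) := by
      have : x * (9 / 16 * (1 + 14 / 10 * x + x ^ 2) * (17 / 10)) <
          x * (201 / 100 * (x ^ 2 + 1 / 1000)) := by linarith
      exact lt_of_mul_lt_mul_left this hx.le
    nlinarith

theorem exists_large : ∃ a₀ : ℕ, 1 ≤ a₀ ∧ ∀ a : ℕ, a₀ ≤ a → 3 * ((a : ℝ) + 1) < (51 / 50 : ℝ) ^ a ∧
    1 / ((a : ℝ) + 2) ≤ 1 / 1000 ∧ 8 * ((a : ℝ) + 1) ^ 2 ≤ 201 / 100 * (2 * a + 1) ^ 2 := by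
  have h1 : Filter.Tendsto (fun a : ℕ => (a : ℝ) ^ 1 / (51 / 50 : ℝ) ^ a) Filter.atTop (nhds 0) :=
    tendsto_pow_const_div_const_pow_of_one_lt 1 (by norm_num)
  have h2 := h1.eventually (gt_mem_nhds (show (0 : ℝ) < 1 / 6 by norm_num))
  obtain ⟨a₁, ha₁⟩ := Filter.eventually_atTop.1 h2
  refine ⟨max a₁ 2000, le_trans (by norm_num) (le_max_right _ _), fun a ha => ?_⟩
  have ha2 : (2000 : ℝ) ≤ a := by exact_mod_cast (le_max_right _ _).trans ha
  have h3 := ha₁ a ((le_max_left _ _).trans ha)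
  rw [pow_one, div_lt_iff₀ (by positivity)] at h3
  refine ⟨by linarith, ?_, by nlinarith⟩
  apply one_div_le_one_div_of_le (by norm_num)
  linarith

theorem norm_one_sub_sq (ξ : ℂ) :
    ‖1 - ξ ^ 2‖ ^ 2 = (1 + ‖ξ‖ ^ 2) ^ 2 - 4 * ξ.re ^ 2 := by
  have hx : ‖ξ‖ ^ 2 = ξ.re ^ 2 + ξ.im ^ 2 := by
    rw [Complex.sq_norm, Complex.normSq_apply]; ring
  rw [hx, Complex.sq_norm, Complex.normSq_apply]
  simp [sq]
  ring

/-- The multiplier bound in the closed right half plane. -/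
theorem bound_right {a : ℕ} (ha1 : 1 ≤ a) (ha : 3 * ((a : ℝ) + 1) < (51 / 50 : ℝ) ^ a)
    (hκ : 1 / ((a : ℝ) + 2) ≤ 1 / 1000) (h8 : 8 * ((a : ℝ) + 1) ^ 2 ≤ 201 / 100 * (2 * a + 1) ^ 2)
    {q : ℂ[X]} (hq : derivative q = (1 - X ^ 2) ^ a) (hq0 : q.eval 0 = 0) {A : ℝ}
    (hA1 : 3 / 2 ≤ A) (hA2 : A ≤ a + 1) (hAq : (A : ℂ) * q.eval 1 = 1) {ξ : ℂ} (hξ : 0 ≤ ξ.re)
    (hfix : (A : ℂ) * q.eval ξ = ξ) : A * ‖1 - ξ ^ 2‖ ^ a ≤ 3 / 4 * (2 * a + 1) := by
  have hapos : (1 : ℝ) ≤ a := by exact_mod_cast ha1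
  rcases le_or_gt (‖1 - ξ ^ 2‖) 1 with hY | hY
  · have : A * ‖1 - ξ ^ 2‖ ^ a ≤ A * 1 :=
      mul_le_mul_of_nonneg_left (pow_le_one₀ (norm_nonneg _) hY) (by linarith)
    linarith
  · rcases hξ.eq_or_lt with h0 | hpos
    · exfalso
      have hre : ξ = ((ξ.im : ℝ) : ℂ) * Complex.I := by
        apply Complex.ext
        · simp [← h0]
        · simp
      have h1 := eval_ray hq hq0 ξ
      have h2 : (∫ s in (0 : ℝ)..1, (1 - ((s : ℂ) * ξ) ^ 2) ^ a) =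
          ((∫ s in (0 : ℝ)..1, (1 + (s * ξ.im) ^ 2) ^ a : ℝ) : ℂ) := by
        rw [← intervalIntegral.integral_ofReal]
        congr 1
        ext s
        rw [hre]
        push_cast
        simp only [mul_pow, Complex.I_sq, Complex.mul_im, Complex.ofReal_re, Complex.I_im,
          Complex.ofReal_im, Complex.I_re, mul_one, mul_zero, add_zero]
        ring
      have h3 : 1 ≤ ∫ s in (0 : ℝ)..1, (1 + (s * ξ.im) ^ 2) ^ a := by
        have : ∫ s in (0 : ℝ)..1, (1 : ℝ) = 1 := by simp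
        refine this.symm.le.trans ?_
        apply integral_mono_on zero_le_one
        · simp
        · exact (Continuous.intervalIntegrable (by fun_prop) _ _)
        · intro s _
          apply one_le_pow₀
          nlinarith [sq_nonneg (s * ξ.im)]
      rw [h1, h2] at hfix
      have hξ0 : ξ ≠ 0 := by
        rintro rfl
        simp at hY
      have h4 : ((A * ∫ s in (0 : ℝ)..1, (1 + (s * ξ.im) ^ 2) ^ a : ℝ) : ℂ) = 1 := by
        apply mul_left_cancel₀ hξ0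
        push_cast
        rw [mul_one]
        conv_rhs => rw [← hfix]
        ring
      have h5 : A * ∫ s in (0 : ℝ)..1, (1 + (s * ξ.im) ^ 2) ^ a = 1 := by exact_mod_cast h4
      nlinarith
    · have hξ1 : (1 : ℂ) - ξ ≠ 0 := by
        intro h
        have : ξ = 1 := (sub_eq_zero.1 h).symm
        rw [this] at hY
        norm_num at hY
      have hsub := eval_sub_eval_one hpos hq
      set I := ∫ s in (0 : ℝ)..1, (s : ℂ) ^ a / rt (1 - ξ ^ 2) s with hI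
      have hm : ((A : ℂ) * (1 - ξ ^ 2) ^ a) * (1 + ξ) * I = 2 := by
        have h1 : ξ - 1 = (A : ℂ) * (q.eval ξ - q.eval 1) := by
          rw [mul_sub, hfix, hAq]
        rw [hsub] at h1
        apply mul_left_cancel₀ hξ1
        have h2 : (1 - ξ ^ 2 : ℂ) ^ (a + 1) = (1 - ξ ^ 2) ^ a * ((1 - ξ) * (1 + ξ)) := by
          rw [pow_succ]; ring
        rw [h2] at h1
        linear_combination 2 * h1
      have hmain := multiplier_sq_le hpos a hm
      have hnorm : ‖(A : ℂ) * (1 - ξ ^ 2) ^ a‖ = A * ‖1 - ξ ^ 2‖ ^ a := by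
        rw [norm_mul, norm_pow, Complex.norm_real, Real.norm_eq_abs, abs_of_nonneg (by linarith)]
      rw [hnorm] at hmain
      set M := A * ‖1 - ξ ^ 2‖ ^ a with hM
      have hx : 0 < ‖ξ‖ := by
        rw [norm_pos_iff]
        rintro rfl
        simp at hpos
      have hux : ξ.re ≤ ‖ξ‖ := Complex.re_le_norm ξ
      have hM0 : 0 ≤ M := by positivity
      -- crude bound
      have hcrude : M ≤ 3 * (a + 1) := by
        by_contra hcon
        push Not at hcon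
        have h1 : 9 * ((a : ℝ) + 1) ^ 2 < M ^ 2 := by nlinarith
        have h2 : 1 / ((a : ℝ) + 2) ≤ 1 := by linarith
        have h3 : 8 * ((a : ℝ) + 1) ^ 2 * (‖ξ‖ ^ 2 + 1 / (a + 2)) * ‖ξ‖ ≤
            8 * ((a : ℝ) + 1) ^ 2 * (‖ξ‖ ^ 2 + 1) * ‖ξ‖ := by
          apply mul_le_mul_of_nonneg_right _ hx.le
          apply mul_le_mul_of_nonneg_left _ (by positivity)
          linarith
        have h4 : M ^ 2 * (1 + ‖ξ‖ ^ 2) * ‖ξ‖ ≤
            M ^ 2 * (1 + 2 * ξ.re + ‖ξ‖ ^ 2) * (‖ξ‖ + ξ.re) := by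
          apply mul_le_mul _ (by linarith) hx.le (by positivity)
          apply mul_le_mul_of_nonneg_left _ (by positivity)
          linarith
        have h5 : M ^ 2 * ((1 + ‖ξ‖ ^ 2) * ‖ξ‖) ≤
            8 * ((a : ℝ) + 1) ^ 2 * ((1 + ‖ξ‖ ^ 2) * ‖ξ‖) := by nlinarith
        have h6 := le_of_mul_le_mul_right h5 (by positivity)
        nlinarith
      have hYle : ‖1 - ξ ^ 2‖ ≤ 51 / 50 := by
        by_contra hcon
        push Not at hcon
        have h1 : (51 / 50 : ℝ) ^ a ≤ ‖1 - ξ ^ 2‖ ^ a := pow_le_pow_left₀ (by norm_num) hcon.le a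
        have h2 : ‖1 - ξ ^ 2‖ ^ a ≤ M := by
          rw [hM]
          nlinarith [pow_nonneg (norm_nonneg (1 - ξ ^ 2)) a]
        linarith
      have hY2 : (1 + ‖ξ‖ ^ 2) ^ 2 - 4 * ξ.re ^ 2 ≤ (51 / 50) ^ 2 := by
        rw [← norm_one_sub_sq]
        exact pow_le_pow_left₀ (norm_nonneg _) hYle 2
      refine final_estimate (by positivity) hx hpos hux hκ hM0 (hmain.trans ?_) hY2
      apply mul_le_mul_of_nonneg_right _ hx.le
      apply mul_le_mul_of_nonneg_right h8 (by positivity)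

/-- For all large `a` there is a polynomial of degree `2 a + 1` with exactly two critical values
all of whose fixed points have multiplier at most `3/4 (2 a + 1)` in modulus. -/
theorem family : ∃ a₀ : ℕ, 1 ≤ a₀ ∧ ∀ a : ℕ, a₀ ≤ a → ∃ p : ℂ[X], p.natDegree = 2 * a + 1 ∧
    cv p = 2 ∧ ∀ ξ : ℂ, p.eval ξ = ξ → ‖(derivative p).eval ξ‖ ≤ 3 / 4 * (2 * a + 1) := by
  obtain ⟨a₀, ha₀1, ha₀⟩ := exists_large
  refine ⟨a₀, ha₀1, fun a ha => ?_⟩
  obtain ⟨ha2, hκ, h8⟩ := ha₀ a ha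
  have ha1 : 1 ≤ a := ha₀1.trans ha
  obtain ⟨q, hq, hq0⟩ := exists_antiderivative ((1 - X ^ 2) ^ a)
  set B : ℝ := ∫ s in (0 : ℝ)..1, (1 - s ^ 2) ^ a with hB
  have hB1 : q.eval 1 = (B : ℂ) := eval_one hq hq0
  have hBl : 1 / ((a : ℝ) + 1) ≤ B := integral_lower a
  have hBu : B ≤ 2 / 3 := integral_upper ha1
  have hBpos : 0 < B := lt_of_lt_of_le (by positivity) hBl
  set A : ℝ := 1 / B with hA
  have hApos : 0 < A := by positivity
  have hA1 : 3 / 2 ≤ A := by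
    rw [hA, le_div_iff₀ hBpos]
    linarith
  have hA2 : A ≤ a + 1 := by
    rw [hA, div_le_iff₀ hBpos]
    rw [div_le_iff₀ (by positivity)] at hBl
    linarith
  have hAq : (A : ℂ) * q.eval 1 = 1 := by
    rw [hB1, ← Complex.ofReal_mul, hA, one_div_mul_cancel hBpos.ne', Complex.ofReal_one]
  have hAc : (A : ℂ) ≠ 0 := by exact_mod_cast hApos.ne'
  have hder : derivative (C (A : ℂ) * q) = C (A : ℂ) * (1 - X ^ 2) ^ a := by
    rw [derivative_C_mul, hq]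
  have hevder : ∀ ξ : ℂ, (derivative (C (A : ℂ) * q)).eval ξ = (A : ℂ) * (1 - ξ ^ 2) ^ a := by
    intro ξ
    rw [hder]
    simp
  have hev : ∀ ξ : ℂ, (C (A : ℂ) * q).eval ξ = (A : ℂ) * q.eval ξ := by
    intro ξ
    simp
  refine ⟨C (A : ℂ) * q, ?_, ?_, ?_⟩
  · have h2 : ((1 : ℂ[X]) - X ^ 2).natDegree = 2 := by
      have : ((1 : ℂ[X]) - X ^ 2) = -(X ^ 2 - C 1) := by rw [map_one]; ring
      rw [this, natDegree_neg, natDegree_X_pow_sub_C]
    have h1 : (derivative (C (A : ℂ) * q)).natDegree = 2 * a := by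
      rw [hder, natDegree_C_mul hAc, natDegree_pow, h2, mul_comm]
    have h3 : (derivative (C (A : ℂ) * q)) ≠ 0 := by
      intro h
      rw [h, natDegree_zero] at h1
      omega
    have h4 : (C (A : ℂ) * q).natDegree ≠ 0 := by
      intro h
      apply h3
      rw [eq_C_of_natDegree_eq_zero h]
      simp
    have h5 := natDegree_derivative (C (A : ℂ) * q)
    omega
  · have hcrit : {z : ℂ | (derivative (C (A : ℂ) * q)).eval z = 0} = {1, -1} := by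
      ext z
      rw [mem_ofPred_eq, hevder]
      constructor
      · intro h
        have h1 : (1 - z ^ 2 : ℂ) = 0 := by
          rcases mul_eq_zero.1 h with h | h
          · exact absurd h hAc
          · exact pow_eq_zero_iff (by omega) |>.1 h
        have h2 : z ^ 2 = 1 ^ 2 := by linear_combination -h1
        rcases sq_eq_sq_iff_eq_or_eq_neg.1 h2 with h | h
        · exact Or.inl h
        · exact Or.inr h
      · rintro (rfl | rfl)
        · rw [one_pow, sub_self, zero_pow (by omega), mul_zero]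
        · rw [neg_sq, one_pow, sub_self, zero_pow (by omega), mul_zero]
    rw [cv, hcrit, image_pair, hev, hev, eval_neg hq hq0, mul_neg, hAq]
    exact ncard_pair (by norm_num)
  · intro ξ hξ
    rw [hev] at hξ
    rw [hevder, norm_mul, norm_pow, Complex.norm_real, Real.norm_eq_abs, abs_of_pos hApos]
    rcases le_total 0 ξ.re with h | h
    · exact bound_right ha1 ha2 hκ h8 hq hq0 hA1 hA2 hAq h hξ
    · have h1 : 0 ≤ (-ξ).re := by simpa using h
      have h2 : (A : ℂ) * q.eval (-ξ) = -ξ := by rw [eval_neg hq hq0, mul_neg, hξ]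
      have h3 := bound_right ha1 ha2 hκ h8 hq hq0 hA1 hA2 hAq h1 h2
      rwa [neg_sq] at h3

theorem maxMultiplier_le {p : ℂ[X]} {c : ℝ} (hc : 0 ≤ c)
    (h : ∀ ξ : ℂ, p.eval ξ = ξ → ‖(derivative p).eval ξ‖ ≤ c) : maxMultiplier p ≤ c := by
  apply Real.sSup_le _ hc
  rintro _ ⟨ξ, hξ, rfl⟩
  exact h ξ hξ

/-- **Negative answer to Q1.** For every `D` there is a polynomial of degree at least `D` with
exactly two critical values all of whose fixed point multipliers are at most `3/4` of its degree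
in modulus; hence the assertion of the question fails (for `ε = 1/5`). -/
theorem result :
    (∀ D : ℕ, ∃ p : ℂ[X], D ≤ p.natDegree ∧ 2 ≤ p.natDegree ∧ cv p = 2 ∧
      maxMultiplier p ≤ 3 / 4 * p.natDegree) ∧
    ¬ ∀ ε : ℝ, 0 < ε → ∃ δ : ℝ, 0 < δ ∧ ∀ p : ℂ[X], 2 ≤ p.natDegree →
      (cv p : ℝ) < δ * p.natDegree → (1 - ε) * p.natDegree ≤ maxMultiplier p := by
  have main : ∀ D : ℕ, ∃ p : ℂ[X], D ≤ p.natDegree ∧ 2 ≤ p.natDegree ∧ cv p = 2 ∧
      maxMultiplier p ≤ 3 / 4 * p.natDegree := by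
    intro D
    obtain ⟨a₀, ha₀1, ha₀⟩ := family
    obtain ⟨p, hp1, hp2, hp3⟩ := ha₀ (max a₀ D) (le_max_left _ _)
    have h1 : a₀ ≤ max a₀ D := le_max_left _ _
    have h2 : D ≤ max a₀ D := le_max_right _ _
    refine ⟨p, by omega, by omega, hp2, ?_⟩
    rw [hp1]
    push_cast
    push_cast at hp3
    exact maxMultiplier_le (by positivity) hp3
  refine ⟨main, ?_⟩
  intro h
  obtain ⟨δ, hδ, hp⟩ := h (1 / 5) (by norm_num)
  obtain ⟨N, hN⟩ := exists_nat_gt (2 / δ)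
  obtain ⟨p, hp1, hp2, hp3, hp4⟩ := main N
  have hdeg : (0 : ℝ) < p.natDegree := by exact_mod_cast (by omega : 0 < p.natDegree)
  have h1 : (cv p : ℝ) < δ * p.natDegree := by
    rw [hp3]
    have h2 : (N : ℝ) ≤ p.natDegree := by exact_mod_cast hp1
    rw [div_lt_iff₀ hδ] at hN
    push_cast
    nlinarith
  have h3 := hp p hp2 h1
  linarith

end Pool.Agent.Results.MP_b61545_an.FewCriticalValues
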